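import Pool.Agent.Q154.PlasticStep

set_option autoImplicit false

/-!
A dense subgroup of the `ℓ₁` plane every injective non-expansive self-map of which is an
isometric embedding; in particular it is plastic.
-/

open Set Cardinal Topology

namespace Pool.Agent.Results.MP_f81d0d_gt.PlasticSubgroup

open Pool.Agent.Q154.Plastic

/-- The `ℓ₁` distance of the plane. -/
def dist₁ (u v : ℝ × ℝ) : ℝ := |u.1 - v.1| + |u.2 - v.2|

/-- A subgroup `G` of the plane is plastic for the `ℓ₁` metric if every non-expansive bijection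
of `G` onto itself preserves the distance. -/
def PlasticGroup (G : AddSubgroup (ℝ × ℝ)) : Prop :=
  ∀ f : G → G, Function.Bijective f → (∀ u v : G, dist₁ (f u) (f v) ≤ dist₁ u v) →
    ∀ u v : G, dist₁ (f u) (f v) = dist₁ u v

/-- The type of nonexpansive maps of the plane. -/
abbrev NE : Type := {F : ℝ × ℝ → ℝ × ℝ // ∀ u v, d1 (F u) (F v) ≤ d1 u v}

theorem card_NE : #NE ≤ 𝔠 := by
  have hinj : Function.Injective (fun (F : NE) (n : ℕ) => F.1 (TopologicalSpace.denseSeq (ℝ × ℝ) n)) := by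
    intro F G h
    apply Subtype.ext
    have h1 := continuous_of_d1 F.2
    have h2 := continuous_of_d1 G.2
    refine h1.ext_on (TopologicalSpace.denseRange_denseSeq (ℝ × ℝ)) h2 ?_
    rintro _ ⟨n, rfl⟩
    exact congrFun h n
  refine (Cardinal.mk_le_of_injective hinj).trans ?_
  have h3 : #(ℕ → ℝ × ℝ) = 𝔠 := by
    rw [← Cardinal.power_def, Cardinal.mk_prod, Cardinal.mk_real]
    simp
  exact h3.le

theorem exists_extension {G : AddSubgroup (ℝ × ℝ)} (hG : Dense (G : Set (ℝ × ℝ))) (f : G → G)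
    (hf : ∀ u v : G, d1 (f u) (f v) ≤ d1 u v) :
    ∃ F : ℝ × ℝ → ℝ × ℝ, (∀ u v, d1 (F u) (F v) ≤ d1 u v) ∧ ∀ u : G, F u = f u := by
  have hdr : DenseRange ((↑) : G → ℝ × ℝ) := hG.denseRange_val
  have hui : IsUniformInducing ((↑) : G → ℝ × ℝ) := isUniformEmbedding_subtype_val.isUniformInducing
  have hdi : IsDenseInducing ((↑) : G → ℝ × ℝ) := hui.isDenseInducing hdr
  have hL : LipschitzWith 2 (fun u : G => ((f u : G) : ℝ × ℝ)) := by
    apply LipschitzWith.of_dist_le_mul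
    intro u v
    have h1 := hf u v
    unfold d1 at h1
    rw [Subtype.dist_eq, Prod.dist_eq, Prod.dist_eq, Real.dist_eq, Real.dist_eq, Real.dist_eq,
      Real.dist_eq]
    have h2 : |(u : ℝ × ℝ).1 - (v : ℝ × ℝ).1| ≤
      max |(u : ℝ × ℝ).1 - (v : ℝ × ℝ).1| |(u : ℝ × ℝ).2 - (v : ℝ × ℝ).2| := le_max_left _ _
    have h3 : |(u : ℝ × ℝ).2 - (v : ℝ × ℝ).2| ≤
      max |(u : ℝ × ℝ).1 - (v : ℝ × ℝ).1| |(u : ℝ × ℝ).2 - (v : ℝ × ℝ).2| := le_max_right _ _
    have h4 := abs_nonneg ((f u : ℝ × ℝ).1 - (f v : ℝ × ℝ).1)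
    have h5 := abs_nonneg ((f u : ℝ × ℝ).2 - (f v : ℝ × ℝ).2)
    apply max_le
    · push_cast; linarith
    · push_cast; linarith
  have huc := hL.uniformContinuous
  have hex : UniformContinuous (hdi.extend (fun u : G => ((f u : G) : ℝ × ℝ))) :=
    uniformContinuous_uniformly_extend hui hdr huc
  have hval : ∀ u : G, hdi.extend (fun u : G => ((f u : G) : ℝ × ℝ)) u = f u := fun u =>
    hdi.extend_eq huc.continuous u
  obtain ⟨F, hFc, hval⟩ : ∃ F : ℝ × ℝ → ℝ × ℝ, Continuous F ∧ ∀ u : G, F u = f u :=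
    ⟨_, hex.continuous, hval⟩
  refine ⟨F, ?_, hval⟩
  have hclosed : IsClosed {p : (ℝ × ℝ) × (ℝ × ℝ) | d1 (F p.1) (F p.2) ≤ d1 p.1 p.2} := by
    unfold d1
    exact isClosed_le (by fun_prop) (by fun_prop)
  have hdense : Dense ((G : Set (ℝ × ℝ)) ×ˢ (G : Set (ℝ × ℝ))) := hG.prod hG
  have hsub : (G : Set (ℝ × ℝ)) ×ˢ (G : Set (ℝ × ℝ)) ⊆
      {p : (ℝ × ℝ) × (ℝ × ℝ) | d1 (F p.1) (F p.2) ≤ d1 p.1 p.2} := by
    rintro ⟨u, v⟩ ⟨hu, hv⟩
    have e1 : F u = f ⟨u, hu⟩ := hval ⟨u, hu⟩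
    have e2 : F v = f ⟨v, hv⟩ := hval ⟨v, hv⟩
    change d1 (F u) (F v) ≤ d1 u v
    rw [e1, e2]
    exact hf ⟨u, hu⟩ ⟨v, hv⟩
  intro u v
  have : (u, v) ∈ closure ((G : Set (ℝ × ℝ)) ×ˢ (G : Set (ℝ × ℝ))) := hdense (u, v)
  exact (closure_minimal hsub hclosed) this

/-- There is a dense subgroup of the `ℓ₁` plane which is plastic.  In fact every injective
non-expansive self-map of this subgroup preserves distances. -/
theorem result : ∃ G : AddSubgroup (ℝ × ℝ), Dense (G : Set (ℝ × ℝ)) ∧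
    PlasticGroup G ∧
    (∀ f : G → G, Function.Injective f → (∀ u v : G, dist₁ (f u) (f v) ≤ dist₁ u v) →
      ∀ u v : G, dist₁ (f u) (f v) = dist₁ u v) := by
  suffices h : ∃ G : AddSubgroup (ℝ × ℝ), Dense (G : Set (ℝ × ℝ)) ∧
      (∀ f : G → G, Function.Injective f → (∀ u v : G, dist₁ (f u) (f v) ≤ dist₁ u v) →
        ∀ u v : G, dist₁ (f u) (f v) = dist₁ u v) by
    obtain ⟨G, h1, h2⟩ := h
    exact ⟨G, h1, fun f hf => h2 f hf.1, h2⟩
  -- the index type
  let I : Type := (Cardinal.ord Cardinal.continuum.{0}).ToType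
  have hI : #I = 𝔠 := Cardinal.mk_ord_toType 𝔠
  have hIio : ∀ i : I, #(Iio i) < 𝔠 := fun i => by
    have := Cardinal.mk_Iio_lt i (by rw [hI]; exact (Ordinal.type_toType _).symm)
    rwa [hI] at this
  have hne : Nonempty NE := ⟨⟨id, fun u v => le_rfl⟩⟩
  obtain ⟨e, he⟩ : ∃ e : I → NE, Function.Surjective e := by
    have h1 : #NE ≤ #I := by rw [hI]; exact card_NE
    rw [Cardinal.le_def] at h1
    obtain ⟨g⟩ := h1
    exact ⟨Function.invFun g, Function.invFun_surjective g.injective⟩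
  obtain ⟨A, B, hA₀, hcomp, hP⟩ := recursion (I := I) hIio
    (range (TopologicalSpace.denseSeq (ℝ × ℝ))) (countable_range _)
    (fun i A B => (∀ u v, d1 ((e i).1 u) ((e i).1 v) = d1 u v) ∨ Kill (e i).1 A B) (by
      intro i A B hA hB hc
      by_cases hiso : ∀ u v, d1 ((e i).1 u) ((e i).1 v) = d1 u v
      · exact ⟨∅, ∅, countable_empty, countable_empty, by simpa using hc, Or.inl hiso⟩
      · obtain ⟨a, b, ha, hb, h1, h2⟩ := step (e i).2 hiso hA hB hc
        exact ⟨a, b, ha, hb, h1, Or.inr h2⟩)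
  have hdense : Dense (cl A : Set (ℝ × ℝ)) :=
    (TopologicalSpace.denseRange_denseSeq (ℝ × ℝ)).mono (hA₀.trans AddSubgroup.subset_closure)
  refine ⟨cl A, hdense, ?_⟩
  intro f hfinj hf
  obtain ⟨F, hF1, hF2⟩ := exists_extension hdense f hf
  obtain ⟨i, hi⟩ := he ⟨F, hF1⟩
  obtain ⟨A', hA', B', hB', hAB⟩ := hP i
  rcases hAB with hiso | hkill
  · intro u v
    have := hiso u v
    rw [hi] at this
    simp only at this
    rw [hF2, hF2] at this
    exact this
  · exfalso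
    have hk := hkill.mono hA' hB'
    rw [hi] at hk
    rcases hk with ⟨x, hx, hxB⟩ | ⟨x, hx, y, hy, hxy, hFxy⟩
    · simp only at hxB
      have := hF2 ⟨x, hx⟩
      simp only at this
      rw [this] at hxB
      exact hcomp _ (f ⟨x, hx⟩).2 hxB
    · simp only at hFxy
      have e1 := hF2 ⟨x, hx⟩
      have e2 := hF2 ⟨y, hy⟩
      simp only at e1 e2
      rw [e1, e2] at hFxy
      have := hfinj (Subtype.ext hFxy)
      exact hxy (congrArg Subtype.val this)

end Pool.Agent.Results.MP_f81d0d_gt.PlasticSubgroup
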